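import Pool.Agent.Y174.RA.A2

/-! Symmetric differentials on the kernel of some 1-forms: local estimates. -/

set_option autoImplicit false
set_option linter.overlappingInstances false
set_option linter.unusedSectionVars false
set_option maxHeartbeats 400000

open FF MvPolynomial Pool.Agent.W619.PQ Pool.Agent.W619.PL Pool.Agent.W619.TW
  Pool.Agent.W603.LV Pool.Agent.W619.Y Pool.Agent.W824.PG Pool.Agent.Y174.T Pool.Agent.Y174.SD
  Pool.Agent.Y174.OB

namespace Pool.Agent.Y174.RA

section

variable {k K : Type} [Field k] [CharZero k] [Field K] [Algebra k K] {n s m d : ℕ}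

/-- a semi-invariant of positive weight which does not vanish -/
theorem exists_semi {N : ℕ} (hs : 1 ≤ s) (hm : 1 ≤ m) (b : Fin s → MvPolynomial (Fin s) K)
    (hb : ∀ j, (b j).IsHomogeneous m)
    (hN : ∀ β : Fin s →₀ ℕ, β.degree = N → monomial β 1 ∈ Ideal.span (Set.range b)) :
    ∃ (Q : Cf k s m) (W : ℕ), 1 ≤ W ∧ SemiInv Q W ∧ aeval (cof m b) Q ≠ 0 := by
  obtain ⟨D, hD, hD0⟩ := Pool.Agent.Y638.SD.t_CRAMER k K s m N (cof m b) (by
    intro β hβ
    have h1 : fm (cof m b) = b := by
      funext j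
      exact fm_coeff hb j
    rw [h1]
    exact hN β hβ)
  have hDne : D ≠ 0 := by
    rintro rfl
    exact hD0 (map_zero _)
  obtain ⟨r, w, -, -, -, hw, hrs, hrd, -, -⟩ := relation Pool.Agent.Y212.SD.t_INT
    Pool.Agent.Y888.SD.t_MIN (Pool.Agent.Y638.SD.t_GCD Pool.Agent.Y108.SD.t_CHAR) k hs hm
    ⟨D, hD, hDne⟩
  refine ⟨r, w, hw, hrs, fun h0 => ?_⟩
  obtain ⟨q, hq⟩ := hrd D hD
  apply hD0
  rw [hq, map_mul, h0, zero_mul]

/-- the coefficients in a family of vector fields -/
theorem cof_trans (y : Fin n → K) (E : Fin s → Derivation k K K)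
    (A : Matrix (Fin s) (Fin s) K) (a : Fin s → MvPolynomial (Fin n) K)
    (ha : ∀ j, (a j).IsHomogeneous m) :
    cof m (fun j => rs y (fun i => ∑ l, A i l • E l) (a j)) =
      SD.trans A (cof m fun j => rs y E (a j)) := by
  funext p
  unfold SD.trans cof
  have h1 : fm (fun p : Fin s × Ex s m => coeff p.2.1 (rs y E (a p.1))) p.1 = rs y E (a p.1) :=
    fm_coeff (fun j => rs_hom y E (ha j)) p.1
  rw [h1, lsub_rs]

/-- The values of a semi-invariant on a family of tangent vector fields. -/
theorem semi_tan {v : Place k K} {δ : Place k K → ℝ} (hv : IsDivisorial v n) (y : Fin n → K)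
    (a : Fin s → MvPolynomial (Fin n) K) (hreg : ∀ j, SymOrb n δ (sym (k := k) y (a j)))
    {Q : Cf k s m} (E : Fin s → Derivation k K K) (hE : ∀ i, Lg v (E i)) :
    GeR v 0 (aeval (cof m fun j => rs y E (a j)) Q) := by
  classical
  rw [aeval_def, eval₂_eq']
  have hco : ∀ p : Fin s × Ex s m, GeR v 0 (cof m (fun j => rs y E (a j)) p) := by
    intro p
    change coeff p.2.1 (rs y E (a p.1)) ∈ geS v 0
    refine coeff_sub (geS v 0) _ (fun β => ?_) _
    rw [eval_rs, mem_geS]
    obtain ⟨q, hq, hqc⟩ := hreg p.1 v hv 0 (∑ i, algebraMap k K (β i) • E i)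
      (fun f _ => Or.inl rfl) (fun f => by
        rw [Pool.Agent.W73.PG.PULL.sum_app, Finset.sum_div]
        have h4 : Ge v 0 (∑ b, (algebraMap k K (β b) • E b) f / f) := by
          refine Ge.sum _ _ fun b _ => ?_
          rw [Derivation.smul_apply, smul_eq_mul, mul_div_assoc]
          exact reg_mul (reg_const _) (hE b f)
        exact h4)
    have h2 := hq 0
    rw [zero_smul, zero_add, ← Polynomial.coeff_zero_eq_eval_zero] at h2
    rw [h2]
    have h3 : GeR v (-((0 : ℕ) * δ v)) (q.coeff 0) := hqc 0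
    simpa using h3
  refine GeR.sum _ _ _ fun μ _ => ?_
  have h2 : GeR v 0 (∏ p, cof m (fun j => rs y E (a j)) p ^ μ p) := by
    have h3 : ∀ t : Finset (Fin s × Ex s m),
        GeR v 0 (∏ p ∈ t, cof m (fun j => rs y E (a j)) p ^ μ p) := by
      intro t
      induction t using Finset.induction_on with
      | empty =>
        right
        rw [Finset.prod_empty, v.ord_one]
        simp
      | insert a t ha ih =>
        rw [Finset.prod_insert ha]
        have h4 := ((hco a).pow (μ a)).mul ih
        simpa using h4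
    exact h3 _
  have h3 : Ge v 0 (algebraMap k K (coeff μ Q)) := Ge.const _
  have h4 := (Ge.toR h3).mul h2
  simpa using h4

/-- The values of a semi-invariant on a family with one vector field which is not tangent. -/
theorem semi_one {v : Place k K} {δ : Place k K → ℝ} (hv : IsDivisorial v n) (y : Fin n → K)
    (a : Fin s → MvPolynomial (Fin n) K) (hreg : ∀ j, SymOrb n δ (sym (k := k) y (a j)))
    {Q : Cf k s m} {W : ℕ} (hQ : SemiInv Q W) (E : Fin s → Derivation k K K) (i1 : Fin s)
    (hP : Pres v (E i1)) (hE : ∀ i, i ≠ i1 → Lg v (E i)) :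
    GeR v (-(W * δ v)) (aeval (cof m fun j => rs y E (a j)) Q) := by
  classical
  have hK0 : CharZero K := charZero_of_injective_algebraMap (algebraMap k K).injective
  refine t_ISO k K s m W v i1 (δ v) Q hQ _ fun p => ?_
  refine coeff_orb _ i1 (fun β => ?_) p.2.1
  obtain ⟨q, hq, hqc⟩ := hreg p.1 v hv (E i1)
    (∑ b ∈ Finset.univ.erase i1, algebraMap k K (β b) • E b) hP (fun f => by
      rw [Pool.Agent.W73.PG.PULL.sum_app, Finset.sum_div]
      have h4 : Ge v 0 (∑ b ∈ Finset.univ.erase i1, (algebraMap k K (β b) • E b) f / f) := by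
        refine Ge.sum _ _ fun b hb => ?_
        rw [Derivation.smul_apply, smul_eq_mul, mul_div_assoc]
        exact reg_mul (reg_const _) (hE b (Finset.ne_of_mem_erase hb) f)
      exact h4)
  refine ⟨q, fun x => ?_, fun i => hqc i⟩
  rw [← hq x, eval_rs]
  congr 1
  rw [← Finset.add_sum_erase Finset.univ _ (Finset.mem_univ i1), Function.update_self]
  congr 1
  refine Finset.sum_congr rfl fun b hb => ?_
  rw [Function.update_of_ne (Finset.ne_of_mem_erase hb)]

/-- multiples of vector fields by functions which vanish are tangent -/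
theorem lg_smul {v : Place k K} {D : Derivation k K K} (hD : Pres v D) {c : K} (hc : Ge v 1 c) :
    Lg v (c • D) := by
  intro f
  by_cases hf : f = 0
  · rw [hf, div_zero]
    exact Or.inl rfl
  have h1 : Ge v (v.ord f - 1) (D f) := ge_der hD hf
  have h2 : Ge v (-v.ord f) f⁻¹ := Or.inr (by rw [v.ord_inv])
  have h3 := (hc.mul h1).mul h2
  rw [Derivation.smul_apply, smul_eq_mul, div_eq_mul_inv]
  have h4 : (1 : ℤ) + (v.ord f - 1) + -v.ord f = 0 := by ring
  rw [h4] at h3
  exact h3

theorem lg_reg_smul {v : Place k K} {D : Derivation k K K} (hD : Lg v D) {c : K}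
    (hc : Ge v 0 c) : Lg v (c • D) := by
  intro f
  rw [Derivation.smul_apply, smul_eq_mul, mul_div_assoc]
  exact reg_mul hc (hD f)

theorem lg_sub {v : Place k K} {D D' : Derivation k K K} (hD : Lg v D) (hD' : Lg v D') :
    Lg v (D - D') := by
  intro f
  rw [Derivation.sub_apply, sub_div]
  have h1 : Ge v 0 (D f / f) := hD f
  have h2 : Ge v 0 (D' f / f) := hD' f
  exact h1.sub h2

theorem lg_sum {v : Place k K} {ι : Type} (t : Finset ι) (D : ι → Derivation k K K)
    (h : ∀ i ∈ t, Lg v (D i)) : Lg v (∑ i ∈ t, D i) := by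
  intro f
  rw [Pool.Agent.W73.PG.PULL.sum_app, Finset.sum_div]
  have h4 : Ge v 0 (∑ b ∈ t, D b f / f) := Ge.sum _ _ fun b hb => h b hb f
  exact h4

theorem pres_reg_smul {v : Place k K} {D : Derivation k K K} (hD : Pres v D) {c : K}
    (hc : Ge v 0 c) : Pres v (c • D) := by
  intro f hf
  rw [Derivation.smul_apply, smul_eq_mul]
  exact reg_mul hc (hD f hf)

theorem pres_sub {v : Place k K} {D D' : Derivation k K K} (hD : Pres v D) (hD' : Pres v D') :
    Pres v (D - D') := by
  intro f hf
  rw [Derivation.sub_apply]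
  have h1 : Ge v 0 (D f) := hD f hf
  have h2 : Ge v 0 (D' f) := hD' f hf
  exact h1.sub h2

theorem pres_sum {v : Place k K} {ι : Type} (t : Finset ι) (D : ι → Derivation k K K)
    (h : ∀ i ∈ t, Pres v (D i)) : Pres v (∑ i ∈ t, D i) := by
  intro f hf
  rw [Pool.Agent.W73.PG.PULL.sum_app]
  have h4 : Ge v 0 (∑ b ∈ t, D b f) := Ge.sum _ _ fun b hb => h b hb f hf
  exact h4

end

end Pool.Agent.Y174.RA
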