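import Pool.Agent.Y174.RA.Defs
import Pool.Agent.Y174.OB.O10

/-! Symmetric differentials on the kernel of some 1-forms: linear algebra. -/

set_option autoImplicit false
set_option linter.overlappingInstances false
set_option linter.unusedSectionVars false
set_option maxHeartbeats 400000

open FF MvPolynomial Pool.Agent.W619.PQ Pool.Agent.W619.PL Pool.Agent.W619.TW
  Pool.Agent.W603.LV Pool.Agent.W619.Y Pool.Agent.W824.PG Pool.Agent.Y174.T Pool.Agent.Y174.SD
  Pool.Agent.Y174.OB

namespace Pool.Agent.Y174.RA

section

variable {k K : Type} [Field k] [CharZero k] [Field K] [Algebra k K] {n s m d : ℕ}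

/-- the polynomial of a symmetric differential in a family of vector fields -/
noncomputable def rs (y : Fin n → K) (E : Fin s → Derivation k K K) :
    MvPolynomial (Fin n) K →ₐ[K] MvPolynomial (Fin s) K :=
  aeval (fun c => ∑ i, C (E i (y c)) * X i)

theorem aeval_rs {L : Type} [Field L] [Algebra K L] (y : Fin n → K)
    (E : Fin s → Derivation k K K) (x : Fin s → L) (p : MvPolynomial (Fin n) K) :
    aeval x (rs y E p) = aeval (fun c => ∑ i, x i * algebraMap K L (E i (y c))) p := by
  unfold rs
  rw [← AlgHom.comp_apply, MvPolynomial.comp_aeval]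
  congr 2
  funext c
  rw [map_sum]
  refine Finset.sum_congr rfl fun i _ => ?_
  rw [map_mul, aeval_X, aeval_C]
  exact mul_comm _ _

theorem eval_rs (y : Fin n → K) (E : Fin s → Derivation k K K) (x : Fin s → K)
    (p : MvPolynomial (Fin n) K) :
    eval x (rs y E p) = sym y p (∑ i, x i • E i) := by
  have h1 := aeval_rs y E x p
  rw [aeval_eq_eval, aeval_eq_eval] at h1
  refine Eq.trans h1 ?_
  unfold sym
  refine congrArg (fun f => eval f p) (funext fun c => ?_)
  rw [Pool.Agent.W721.PG.EFF2.der_sum]
  rfl

theorem rs_hom (y : Fin n → K) (E : Fin s → Derivation k K K) {p : MvPolynomial (Fin n) K}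
    (hp : p.IsHomogeneous m) : (rs y E p).IsHomogeneous m := by
  unfold rs
  have h1 := hp.aeval (fun c => ∑ i, C (E i (y c)) * X i : Fin n → MvPolynomial (Fin s) K)
    (n := 1) (fun c => by
      refine IsHomogeneous.sum _ _ _ fun i _ => ?_
      have h2 := (isHomogeneous_C (Fin s) (E i (y c))).mul (isHomogeneous_X K i)
      rw [zero_add] at h2
      exact h2)
  rw [one_mul] at h1
  exact h1

theorem lsub_rs (A : Matrix (Fin s) (Fin s) K) (y : Fin n → K) (E : Fin s → Derivation k K K)
    (p : MvPolynomial (Fin n) K) :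
    lsub A (rs y E p) = rs y (fun i => ∑ j, A i j • E j) p := by
  unfold lsub rs
  rw [← AlgHom.comp_apply, MvPolynomial.comp_aeval]
  congr 2
  funext c
  rw [map_sum]
  have h1 : ∀ j, aeval (fun c => ∑ i, C (A i c) * X i) (C (E j (y c)) * X j) =
      ∑ i, C (A i j * E j (y c)) * (X i : MvPolynomial (Fin s) K) := by
    intro j
    rw [map_mul, aeval_X, aeval_C, algebraMap_eq, Finset.mul_sum]
    refine Finset.sum_congr rfl fun i _ => ?_
    rw [C_mul]
    ring
  rw [Finset.sum_congr rfl fun j _ => h1 j, Finset.sum_comm]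
  refine Finset.sum_congr rfl fun i _ => ?_
  rw [Pool.Agent.W721.PG.EFF2.der_sum, map_sum, Finset.sum_mul]

/-- A frame which is adapted to the forms. -/
theorem exists_adapted (hn : Algebra.trdeg k K = (d + s : ℕ))
    {α : Fin d → (Derivation k K K →ₗ[K] K)} (hα : LinearIndependent K α) :
    ∃ (F : Fin d → Derivation k K K) (E : Fin s → Derivation k K K),
      (∀ i j, α i (F j) = if i = j then 1 else 0) ∧ (∀ i j, α i (E j) = 0) ∧
      LinearIndependent K E ∧
      ∀ D : Derivation k K K, ∃ b : Fin s → K, D = ∑ l, α l D • F l + ∑ j, b j • E j := by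
  classical
  have hK0 : CharZero K := charZero_of_injective_algebraMap (algebraMap k K).injective
  obtain ⟨y, hy⟩ := Pool.Agent.W636.PG.exists_basis k K (d + s) hn
  obtain ⟨E0, hE0⟩ := Pool.Agent.W636.PG.exists_duals k K (d + s) y hy
  have hexp := fun D : Derivation k K K => Pool.Agent.W73.PG.PULL.expand y hy E0 hE0 D
  let b0 : Module.Basis (Fin (d + s)) K (Derivation k K K) := Module.Basis.mk (li_duals hE0) (by
    intro D _
    rw [← hexp D]
    exact Submodule.sum_mem _ fun i _ => Submodule.smul_mem _ _ (Submodule.subset_span ⟨i, rfl⟩))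
  have hfin : Module.Finite K (Derivation k K K) := Module.Finite.of_basis b0
  have hrank : Module.finrank K (Derivation k K K) = d + s := by
    rw [Module.finrank_eq_card_basis b0, Fintype.card_fin]
  let Φ : Derivation k K K →ₗ[K] (Fin d → K) := LinearMap.pi α
  have hsurj : LinearMap.range Φ = ⊤ := by
    by_contra hne
    obtain ⟨f, hf, hf0⟩ := Submodule.exists_dual_map_eq_bot_of_lt_top (lt_top_iff_ne_top.2 hne)
      inferInstance
    apply hf
    have h1 : ∀ D, f (Φ D) = 0 := by
      intro D
      have h2 := Submodule.mem_map_of_mem (f := f) (LinearMap.mem_range_self Φ D)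
      rw [hf0] at h2
      exact (Submodule.mem_bot K).1 h2
    have h2 : ∀ c : Fin d → K, f c = ∑ i, c i * f (Pi.single i 1) := by
      intro c
      conv_lhs => rw [pi_eq_sum_univ' c]
      rw [map_sum]
      refine Finset.sum_congr rfl fun i _ => ?_
      rw [map_smul, smul_eq_mul]
    have h3 : ∑ i, f (Pi.single i 1) • α i = 0 := by
      refine LinearMap.ext fun D => ?_
      rw [LinearMap.sum_apply, LinearMap.zero_apply, ← h1 D, h2]
      refine Finset.sum_congr rfl fun i _ => ?_
      rw [LinearMap.smul_apply, smul_eq_mul, mul_comm]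
      rfl
    have h4 := (Fintype.linearIndependent_iff.1 hα) _ h3
    refine LinearMap.ext fun c => ?_
    rw [h2, LinearMap.zero_apply]
    exact Finset.sum_eq_zero fun i _ => by rw [h4 i, mul_zero]
  have hker : Module.finrank K (LinearMap.ker Φ) = s := by
    have h1 := LinearMap.finrank_range_add_finrank_ker Φ
    rw [hsurj, finrank_top, hrank, Module.finrank_fintype_fun_eq_card, Fintype.card_fin] at h1
    omega
  let bk : Module.Basis (Fin s) K (LinearMap.ker Φ) := Module.finBasisOfFinrankEq K _ hker
  have hF : ∀ j : Fin d, ∃ D, Φ D = Pi.single j 1 := fun j => by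
    have h1 : (Pi.single j 1 : Fin d → K) ∈ LinearMap.range Φ := by rw [hsurj]; trivial
    exact h1
  choose F hF using hF
  have hαF : ∀ i j, α i (F j) = if i = j then 1 else 0 := by
    intro i j
    have h1 := congrFun (hF j) i
    rw [Pi.single_apply] at h1
    exact h1
  refine ⟨F, fun j => bk j, hαF, fun i j => ?_, ?_, fun D => ?_⟩
  · have h1 := (bk j).2
    rw [LinearMap.mem_ker] at h1
    exact congrFun h1 i
  · exact bk.linearIndependent.map' (LinearMap.ker Φ).subtype (Submodule.ker_subtype _)
  · have h1 : D - ∑ l, α l D • F l ∈ LinearMap.ker Φ := by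
      rw [LinearMap.mem_ker]
      funext i
      change α i (D - ∑ l, α l D • F l) = 0
      rw [map_sub, map_sum]
      simp only [map_smul, smul_eq_mul, hαF]
      simp
    refine ⟨fun j => bk.repr ⟨_, h1⟩ j, ?_⟩
    have h2 := bk.sum_repr ⟨_, h1⟩
    have h3 := congrArg (Subtype.val : LinearMap.ker Φ → Derivation k K K) h2
    rw [Submodule.coe_sum] at h3
    simp only [Submodule.coe_smul] at h3
    rw [h3]
    abel

end

end Pool.Agent.Y174.RA
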