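import Pool.Agent.Y174.RA.A1
import Mathlib.LinearAlgebra.LinearIndependent.BaseChange

/-! Symmetric differentials on the kernel of some 1-forms: the semi-invariant. -/

set_option autoImplicit false
set_option linter.overlappingInstances false
set_option linter.unusedSectionVars false
set_option maxHeartbeats 400000

open FF MvPolynomial Pool.Agent.W619.PQ Pool.Agent.W619.PL Pool.Agent.W619.TW
  Pool.Agent.W603.LV Pool.Agent.W619.Y Pool.Agent.W824.PG Pool.Agent.Y174.T Pool.Agent.Y174.SD
  Pool.Agent.Y174.OB

namespace Pool.Agent.Y174.RA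

section

variable {k K : Type} [Field k] [CharZero k] [Field K] [Algebra k K] {n s m d : ℕ}

/-- forms of one degree without common zeros on the span of `E` -/
theorem exists_one_degree {δ : Place k K → ℝ} {α : Fin d → (Derivation k K K →ₗ[K] K)}
    {y : Fin n → K} (hy : IsTranscendenceBasis k y) (h : NoBaseKer n δ α)
    {E : Fin s → Derivation k K K} (hE : LinearIndependent K E) (hαE : ∀ i j, α i (E j) = 0) :
    ∃ (m M : ℕ) (H : Fin M → MvPolynomial (Fin n) K) (N : ℕ), 1 ≤ m ∧
      (∀ j, (H j).IsHomogeneous m) ∧ (∀ j, SymOrb n δ (sym (k := k) y (H j))) ∧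
      ∀ β : Fin s →₀ ℕ, β.degree = N →
        monomial β 1 ∈ Ideal.span (Set.range fun j => rs y E (H j)) := by
  classical
  have hK0 : CharZero K := charZero_of_injective_algebraMap (algebraMap k K).injective
  obtain ⟨E0, hE0⟩ := Pool.Agent.W636.PG.exists_duals k K n y hy
  have hexp := fun D : Derivation k K K => Pool.Agent.W73.PG.PULL.expand y hy E0 hE0 D
  -- the matrix of `E`
  let A : Matrix (Fin s) (Fin n) K := Matrix.of fun i c => E i (y c)
  have key : ∀ c : Fin s → AlgebraicClosure K, c ≠ 0 →
      ∃ p ∈ {p : MvPolynomial (Fin s) K | ∃ (m : ℕ) (q : MvPolynomial (Fin n) K), 1 ≤ m ∧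
        q.IsHomogeneous m ∧ SymOrb n δ (sym (k := k) y q) ∧ p = rs y E q}, aeval c p ≠ 0 := by
    intro c hc
    let ξ : Fin n → AlgebraicClosure K :=
      fun b => ∑ i, c i * algebraMap K (AlgebraicClosure K) (E i (y b))
    have hξ : ξ ≠ 0 := by
      intro h0
      -- a linear relation over the algebraic closure
      have hli : LinearIndependent K (fun i => A i) := by
        rw [Fintype.linearIndependent_iff]
        intro g hg i
        rw [Fintype.linearIndependent_iff] at hE
        refine hE g ?_ i
        rw [← hexp (∑ i, g i • E i)]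
        refine Finset.sum_eq_zero fun b _ => ?_
        rw [Pool.Agent.W721.PG.EFF2.der_sum]
        have h1 := congrFun hg b
        rw [Finset.sum_apply] at h1
        have h2 : ∑ i, g i * E i (y b) = 0 := h1
        rw [h2, zero_smul]
      have hli2 : LinearIndependent (AlgebraicClosure K)
          (fun i => fun b => algebraMap K (AlgebraicClosure K) (A i b)) := by
        exact linearIndependent_algebraMap_comp_iff.2 hli
      rw [Fintype.linearIndependent_iff] at hli2
      apply hc
      funext i
      refine hli2 c ?_ i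
      funext b
      rw [Finset.sum_apply]
      exact congrFun h0 b
    have hα : ∀ j, ∑ b, ξ b * algebraMap K (AlgebraicClosure K) (α j (E0 b)) = 0 := by
      intro j
      have h1 : ∀ i, ∑ b, E i (y b) * α j (E0 b) = 0 := by
        intro i
        have h2 := congrArg (α j) (hexp (E i))
        rw [map_sum, hαE] at h2
        simpa only [map_smul, smul_eq_mul] using h2
      change ∑ b, (∑ i, c i * algebraMap K (AlgebraicClosure K) (E i (y b))) *
        algebraMap K (AlgebraicClosure K) (α j (E0 b)) = 0
      simp only [Finset.sum_mul]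
      rw [Finset.sum_comm]
      refine Finset.sum_eq_zero fun i _ => ?_
      have h3 := congrArg (algebraMap K (AlgebraicClosure K)) (h1 i)
      rw [map_sum, map_zero] at h3
      rw [← mul_zero (c i), ← h3, Finset.mul_sum]
      refine Finset.sum_congr rfl fun b _ => ?_
      rw [map_mul, mul_assoc]
    obtain ⟨m, s', p, hm, hs, hlog, hp, hpc⟩ := h E0 (li_duals hE0) ξ hξ hα
    obtain ⟨q, hq, hqe⟩ := hs n E0
    have hqp : q = p := by
      refine MvPolynomial.funext fun a => ?_
      rw [← hqe, hp]
    subst hqp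
    refine ⟨rs y E q, ⟨m, q, hm, hq, ?_, rfl⟩, ?_⟩
    · have hsq : s' = sym y q := by
        funext D
        have h3 := hqe fun c => D (y c)
        rw [hexp D] at h3
        exact h3
      rw [← hsq]
      exact hlog
    · rw [aeval_rs]
      exact hpc
  obtain ⟨M, H, N, hH, hN⟩ := null (K := K) (L := AlgebraicClosure K) _ key
  choose μ Q hμ1 hμh hμs hHQ using hH
  let T : ℕ := ∏ j, μ j
  have hT : 1 ≤ T := Nat.one_le_iff_ne_zero.2 (Finset.prod_ne_zero_iff.2 fun j _ =>
    Nat.one_le_iff_ne_zero.1 (hμ1 j))
  have hdvd : ∀ j, μ j ∣ T := fun j => Finset.dvd_prod_of_mem _ (Finset.mem_univ j)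
  obtain ⟨M', H', N', hH', hN'⟩ := null (K := K) (L := AlgebraicClosure K)
    {p : MvPolynomial (Fin s) K | ∃ q : MvPolynomial (Fin n) K, q.IsHomogeneous T ∧
      SymOrb n δ (sym (k := k) y q) ∧ p = rs y E q} (by
      intro c hc
      obtain ⟨j, hj⟩ := exists_ne hN hc
      refine ⟨rs y E (Q j ^ (T / μ j)), ⟨Q j ^ (T / μ j), ?_, ?_, rfl⟩, ?_⟩
      · have h1 := (hμh j).pow (T / μ j)
        rwa [Nat.mul_div_cancel' (hdvd j)] at h1
      · have h1 := symOrb_pow (hμs j) (T / μ j)
        have h2 : sym (k := k) y (Q j ^ (T / μ j)) = fun D => sym y (Q j) D ^ (T / μ j) := by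
          funext D
          exact map_pow (eval fun c => D (y c)) (Q j) _
        rw [h2]
        exact h1
      · rw [map_pow, map_pow, ← hHQ j]
        exact pow_ne_zero _ hj)
  choose Q' hQh hQs hQ' using hH'
  refine ⟨T, M', Q', N', hT, hQh, hQs, fun β hβ => ?_⟩
  have h1 : (fun j => rs y E (Q' j)) = H' := by
    funext j
    exact (hQ' j).symm
  rw [h1]
  exact hN' β hβ

end

end Pool.Agent.Y174.RA
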