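import Pool.Agent.Y174.RA.A3

/-! Symmetric differentials on the kernel of some 1-forms: frames adapted to a prime divisor. -/

set_option autoImplicit false
set_option linter.overlappingInstances false
set_option linter.unusedSectionVars false
set_option maxHeartbeats 400000

open FF MvPolynomial Pool.Agent.W619.PQ Pool.Agent.W619.PL Pool.Agent.W619.TW
  Pool.Agent.W603.LV Pool.Agent.W619.Y Pool.Agent.W824.PG Pool.Agent.Y174.T Pool.Agent.Y174.SD
  Pool.Agent.Y174.OB

namespace Pool.Agent.Y174.RA

section

variable {k K : Type} [Field k] [CharZero k] [Field K] [Algebra k K] {n s d : ℕ}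

/-- the minors -/
noncomputable def mu (α : Fin d → (Derivation k K K →ₗ[K] K)) (F : Fin n → Derivation k K K)
    (J : Fin d → Fin n) : K := (Matrix.of fun i l => α i (F (J l))).det

theorem exists_mu_ne (α : Fin d → (Derivation k K K →ₗ[K] K)) (F : Fin n → Derivation k K K)
    (hF : ∀ D : Derivation k K K, ∃ x : Fin n → K, D = ∑ b, x b • F b)
    {D : Fin d → Derivation k K K} (hD : (Matrix.of fun i j => α i (D j)).det ≠ 0) :
    ∃ J, mu α F J ≠ 0 := by
  classical
  by_contra hcon
  push Not at hcon
  apply hD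
  choose x hx using fun j => hF (D j)
  rw [← Matrix.det_transpose]
  have h1 := (Matrix.detRowAlternating (R := K) (n := Fin d)).toMultilinearMap.map_sum
    (fun (j : Fin d) (b : Fin n) => (x j b • fun i => α i (F b)))
  have h2 : (fun j => ∑ b : Fin n, (x j b • fun i => α i (F b))) =
      (Matrix.of fun i j => α i (D j)).transpose := by
    funext j i
    rw [Finset.sum_apply, Matrix.transpose_apply, Matrix.of_apply]
    conv_rhs => rw [hx j, map_sum]
    refine Finset.sum_congr rfl fun b _ => ?_
    rw [map_smul]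
    rfl
  rw [h2] at h1
  refine h1.trans (Finset.sum_eq_zero fun J _ => ?_)
  have h3 := (Matrix.detRowAlternating (R := K) (n := Fin d)).toMultilinearMap.map_smul_univ
    (fun j => x j (J j)) (fun j i => α i (F (J j)))
  refine h3.trans ?_
  have h4 : (Matrix.detRowAlternating (R := K) (n := Fin d)).toMultilinearMap
      (fun j i => α i (F (J j))) = mu α F J := by
    unfold mu
    rw [← Matrix.det_transpose]
    rfl
  rw [h4, hcon, smul_zero]

theorem mu_inj {α : Fin d → (Derivation k K K →ₗ[K] K)} {F : Fin n → Derivation k K K}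
    {J : Fin d → Fin n} (h : mu α F J ≠ 0) : Function.Injective J := by
  intro l l' hl
  by_contra hne
  apply h
  refine Matrix.det_zero_of_column_eq hne fun i => ?_
  rw [Matrix.of_apply, Matrix.of_apply, hl]

theorem cramer_id (α : Fin d → (Derivation k K K →ₗ[K] K)) (F : Fin n → Derivation k K K)
    (J : Fin d → Fin n) (b : Fin n) (i : Fin d) :
    ∑ l, mu α F (Function.update J l b) * α i (F (J l)) = mu α F J * α i (F b) := by
  classical
  have h1 := congrFun (Matrix.mulVec_cramer (Matrix.of fun i l => α i (F (J l)))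
    (fun i => α i (F b))) i
  rw [Matrix.mulVec, dotProduct] at h1
  rw [Pi.smul_apply, smul_eq_mul] at h1
  rw [show mu α F J = (Matrix.of fun i l => α i (F (J l))).det from rfl, ← h1]
  refine Finset.sum_congr rfl fun l _ => ?_
  rw [Matrix.cramer_apply, Matrix.of_apply, mul_comm]
  congr 1
  unfold mu
  congr 1
  ext i' l'
  rw [Matrix.of_apply, Matrix.updateCol_apply]
  by_cases hl : l' = l
  · rw [if_pos hl, hl, Function.update_self]
  · rw [if_neg hl, Function.update_of_ne hl, Matrix.of_apply]

/-- A frame adapted to the divisor and to the kernel of the forms. -/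
theorem exists_local {v : Place k K} (α : Fin d → (Derivation k K K →ₗ[K] K))
    (F : Fin n → Derivation k K K) (i0 : Fin n) (hP : ∀ i, Pres v (F i))
    (hL : ∀ b, b ≠ i0 → Lg v (F b))
    (hspan : ∀ D, Pres v D → ∃ x : Fin n → K, (∀ i, Ge v 0 (x i)) ∧ D = ∑ b, x b • F b)
    (hcard : d + s = n) (hne : ∃ J, mu α F J ≠ 0) :
    ∃ (J : Fin d → Fin n) (E : Fin s → Derivation k K K), (∀ i j, α i (E j) = 0) ∧
      (∀ D, Pres v D → ∃ (x : Fin d → K) (z : Fin s → K), (∀ i, Ge v 0 (x i)) ∧
        (∀ i, Ge v 0 (z i)) ∧ D = ∑ l, x l • F (J l) + ∑ j, z j • E j) ∧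
      (((∀ l, Lg v (F (J l))) ∧ ∃ j1, Pres v (E j1) ∧ ∀ j, j ≠ j1 → Lg v (E j)) ∨
        ((∀ l, Pres v (F (J l))) ∧ ∀ j, Lg v (E j))) := by
  classical
  let key : (Fin d → Fin n) → ℤ := fun J => 2 * v.ord (mu α F J) + if ∃ l, J l = i0 then 1 else 0
  obtain ⟨J1, hJ1⟩ := hne
  obtain ⟨J, hJ, hmin⟩ := Finset.exists_min_image
    (Finset.univ.filter fun J : Fin d → Fin n => mu α F J ≠ 0) key
    ⟨J1, Finset.mem_filter.2 ⟨Finset.mem_univ _, hJ1⟩⟩
  have hJ0 : mu α F J ≠ 0 := (Finset.mem_filter.1 hJ).2
  have hinj := mu_inj hJ0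
  have hmin' : ∀ J', mu α F J' ≠ 0 → key J ≤ key J' := fun J' h' =>
    hmin J' (Finset.mem_filter.2 ⟨Finset.mem_univ _, h'⟩)
  let c : Fin n → Fin d → K := fun b l => mu α F (Function.update J l b) / mu α F J
  have hc0 : ∀ b l, Ge v 0 (c b l) := by
    intro b l
    by_cases h0 : mu α F (Function.update J l b) = 0
    · left
      change _ / _ = 0
      rw [h0, zero_div]
    · right
      have h1 := hmin' _ h0
      change _ ≤ v.ord (_ / _)
      rw [div_eq_mul_inv, v.ord_mul h0 (inv_ne_zero hJ0), v.ord_inv]
      simp only [key] at h1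
      split_ifs at h1 <;> omega
  have hc1 : ∀ b l, J l = i0 → b ≠ i0 → Ge v 1 (c b l) := by
    intro b l hl hb
    by_cases h0 : mu α F (Function.update J l b) = 0
    · left
      change _ / _ = 0
      rw [h0, zero_div]
    · right
      have h1 := hmin' _ h0
      change _ ≤ v.ord (_ / _)
      rw [div_eq_mul_inv, v.ord_mul h0 (inv_ne_zero hJ0), v.ord_inv]
      simp only [key] at h1
      rw [if_pos ⟨l, hl⟩, if_neg] at h1
      · omega
      · rintro ⟨l', hl'⟩
        by_cases hll : l' = l
        · rw [hll, Function.update_self] at hl'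
          exact hb hl'
        · rw [Function.update_of_ne hll] at hl'
          exact hll (hinj (hl'.trans hl.symm))
  -- the complement
  have hcardS : (Finset.univ \ Finset.univ.image J).card = s := by
    rw [Finset.card_sdiff_of_subset (Finset.subset_univ _), Finset.card_image_of_injective _ hinj,
      Finset.card_univ, Finset.card_univ, Fintype.card_fin, Fintype.card_fin]
    omega
  let ι : Fin s → Fin n := fun j => (Finset.univ \ Finset.univ.image J).orderEmbOfFin hcardS j
  have hι : ∀ j l, ι j ≠ J l := by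
    intro j l h
    have h1 := Finset.orderEmbOfFin_mem (Finset.univ \ Finset.univ.image J) hcardS j
    rw [Finset.mem_sdiff] at h1
    apply h1.2
    rw [Finset.mem_image]
    exact ⟨l, Finset.mem_univ _, h.symm⟩
  have hιinj : Function.Injective ι := fun j j' h =>
    ((Finset.univ \ Finset.univ.image J).orderEmbOfFin hcardS).injective h
  have hιs : ∀ b, (∀ l, J l ≠ b) → ∃ j, ι j = b := by
    intro b hb
    have h1 : b ∈ Set.range ((Finset.univ \ Finset.univ.image J).orderEmbOfFin hcardS) := by
      rw [Finset.range_orderEmbOfFin]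
      simp only [Finset.coe_sdiff, Finset.coe_univ, Finset.coe_image, Set.image_univ,
        Set.mem_diff, Set.mem_univ, true_and, Set.mem_range, not_exists]
      exact hb
    exact h1
  let E : Fin s → Derivation k K K := fun j => F (ι j) - ∑ l, c (ι j) l • F (J l)
  refine ⟨J, E, fun i j => ?_, fun D hD => ?_, ?_⟩
  · change α i (F (ι j) - ∑ l, c (ι j) l • F (J l)) = 0
    rw [map_sub, map_sum, sub_eq_zero]
    have h1 := cramer_id α F J (ι j) i
    rw [eq_comm]
    have h2 : ∀ l, α i (c (ι j) l • F (J l)) =
        (mu α F J)⁻¹ * (mu α F (Function.update J l (ι j)) * α i (F (J l))) := by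
      intro l
      rw [map_smul, smul_eq_mul]
      change _ / _ * _ = _
      rw [div_eq_mul_inv]
      ring
    rw [Finset.sum_congr rfl fun l _ => h2 l, ← Finset.mul_sum, h1, ← mul_assoc,
      inv_mul_cancel₀ hJ0, one_mul]
  · obtain ⟨x, hx, hxD⟩ := hspan D hD
    have hF : ∀ b, ∃ (u : Fin d → K) (w : Fin s → K), (∀ i, Ge v 0 (u i)) ∧ (∀ i, Ge v 0 (w i)) ∧
        F b = ∑ l, u l • F (J l) + ∑ j, w j • E j := by
      intro b
      by_cases hb : ∃ l, J l = b
      · obtain ⟨l, hl⟩ := hb
        refine ⟨Pi.single l 1, 0, fun i => ?_, fun i => Or.inl rfl, ?_⟩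
        · by_cases hi : i = l
          · rw [hi, Pi.single_eq_same]
            exact Ge.one
          · rw [Pi.single_eq_of_ne hi]
            exact Or.inl rfl
        · rw [Finset.sum_eq_single l]
          · simp [hl]
          · intro l' _ hl'
            rw [Pi.single_eq_of_ne hl', zero_smul]
          · intro h
            exact absurd (Finset.mem_univ l) h
      · push Not at hb
        obtain ⟨j, hj⟩ := hιs b hb
        refine ⟨c b, Pi.single j 1, fun i => hc0 b i, fun i => ?_, ?_⟩
        · by_cases hi : i = j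
          · rw [hi, Pi.single_eq_same]
            exact Ge.one
          · rw [Pi.single_eq_of_ne hi]
            exact Or.inl rfl
        · have h1 : ∑ j', (Pi.single j 1 : Fin s → K) j' • E j' = E j := by
            rw [Finset.sum_eq_single j]
            · simp
            · intro l' _ hl'
              rw [Pi.single_eq_of_ne hl', zero_smul]
            · intro h
              exact absurd (Finset.mem_univ j) h
          rw [h1]
          change F b = ∑ l, c b l • F (J l) + (F (ι j) - ∑ l, c (ι j) l • F (J l))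
          rw [hj]
          abel
    choose u w hu hw huw using hF
    refine ⟨fun l => ∑ b, x b * u b l, fun j => ∑ b, x b * w b j,
      fun l => Ge.sum _ _ fun b _ => reg_mul (hx b) (hu b l),
      fun l => Ge.sum _ _ fun b _ => reg_mul (hx b) (hw b l), ?_⟩
    rw [hxD]
    conv_lhs => rw [Finset.sum_congr rfl fun b _ => by rw [huw b]]
    simp only [smul_add, Finset.smul_sum, Finset.sum_add_distrib, Finset.sum_smul, smul_smul]
    rw [Finset.sum_comm]
    congr 1
    rw [Finset.sum_comm]
  · by_cases hi0 : ∃ l, J l = i0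
    · right
      obtain ⟨l0, hl0⟩ := hi0
      refine ⟨fun l => hP _, fun j => ?_⟩
      have hj0 : ι j ≠ i0 := fun h => hι j l0 (h.trans hl0.symm)
      refine lg_sub (hL _ hj0) (lg_sum _ _ fun l _ => ?_)
      by_cases hl : J l = i0
      · exact lg_smul (hP _) (hc1 _ _ hl hj0)
      · exact lg_reg_smul (hL _ hl) (hc0 _ _)
    · left
      push Not at hi0
      refine ⟨fun l => hL _ (hi0 l), ?_⟩
      obtain ⟨j1, hj1⟩ := hιs i0 hi0
      refine ⟨j1, pres_sub (hP _) (pres_sum _ _ fun l _ => pres_reg_smul (hP _) (hc0 _ _)),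
        fun j hj => ?_⟩
      have hj0 : ι j ≠ i0 := fun h => hj (hιinj (h.trans hj1.symm))
      exact lg_sub (hL _ hj0) (lg_sum _ _ fun l _ => lg_reg_smul (hL _ (hi0 l)) (hc0 _ _))

end

end Pool.Agent.Y174.RA
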