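import Pool.Agent.Y174.RA.A4

/-! Symmetric differentials on the kernel of some 1-forms: the pluricanonical forms. -/

set_option autoImplicit false
set_option linter.overlappingInstances false
set_option linter.unusedSectionVars false
set_option maxHeartbeats 1000000

open FF MvPolynomial Pool.Agent.W619.PQ Pool.Agent.W619.PL Pool.Agent.W619.TW
  Pool.Agent.W603.LV Pool.Agent.W619.Y Pool.Agent.W824.PG Pool.Agent.Y174.T Pool.Agent.Y174.SD
  Pool.Agent.Y174.OB

namespace Pool.Agent.Y174.RA

section

variable {k K : Type} [Field k] [CharZero k] [Field K] [Algebra k K] {n s m d : ℕ}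

/-- the frame `(F, E)` -/
def fr (F : Fin d → Derivation k K K) (E : Fin s → Derivation k K K) :
    Fin (d + s) → Derivation k K K := Fin.append F E

theorem fr_sum (F : Fin d → Derivation k K K) (E : Fin s → Derivation k K K)
    (x : Fin (d + s) → K) : ∑ i, x i • fr F E i =
      ∑ l, x (Fin.castAdd s l) • F l + ∑ j, x (Fin.natAdd d j) • E j := by
  rw [Fin.sum_univ_add]
  simp only [fr, Fin.append_left, Fin.append_right]

/-- the determinant of a block matrix -/
theorem det_blocks (P : Matrix (Fin (d + s)) (Fin (d + s)) K) (Cm : Matrix (Fin d) (Fin d) K)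
    (A : Matrix (Fin s) (Fin s) K)
    (h1 : ∀ l l', P (Fin.castAdd s l) (Fin.castAdd s l') = Cm l l')
    (h2 : ∀ j l', P (Fin.natAdd d j) (Fin.castAdd s l') = 0)
    (h3 : ∀ j j', P (Fin.natAdd d j) (Fin.natAdd d j') = A j j') : P.det = Cm.det * A.det := by
  classical
  have h4 : P = (Matrix.fromBlocks Cm (Matrix.of fun l j => P (Fin.castAdd s l) (Fin.natAdd d j))
      0 A).submatrix finSumFinEquiv.symm finSumFinEquiv.symm := by
    ext i i'
    rw [Matrix.submatrix_apply]
    refine Fin.addCases (fun l => ?_) (fun j => ?_) i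
    · refine Fin.addCases (fun l' => ?_) (fun j' => ?_) i'
      · rw [finSumFinEquiv_symm_apply_castAdd, finSumFinEquiv_symm_apply_castAdd,
          Matrix.fromBlocks_apply₁₁, h1]
      · rw [finSumFinEquiv_symm_apply_castAdd, finSumFinEquiv_symm_apply_natAdd,
          Matrix.fromBlocks_apply₁₂, Matrix.of_apply]
    · refine Fin.addCases (fun l' => ?_) (fun j' => ?_) i'
      · rw [finSumFinEquiv_symm_apply_natAdd, finSumFinEquiv_symm_apply_castAdd,
          Matrix.fromBlocks_apply₂₁, h2]
        rfl
      · rw [finSumFinEquiv_symm_apply_natAdd, finSumFinEquiv_symm_apply_natAdd,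
          Matrix.fromBlocks_apply₂₂, h3]
  rw [h4, Matrix.det_submatrix_equiv_self, Matrix.det_fromBlocks_zero₂₁]

/-- **Theorem.** -/
theorem main_ker (hess : Algebra.EssFiniteType k K) (hn : Algebra.trdeg k K = (d + s : ℕ))
    (hs : 1 ≤ s) {δ : Place k K → ℝ} {α : Fin d → (Derivation k K K →ₗ[K] K)}
    (hα : LinearIndependent K α) (hB : NoBaseKer (d + s) δ α) {h : ℕ}
    (hT : TenKod (d + s) δ α h) : PairKod k K (d + s) δ h := by
  classical
  have hK0 : CharZero K := charZero_of_injective_algebraMap (algebraMap k K).injective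
  obtain ⟨y, hy⟩ := Pool.Agent.W636.PG.exists_basis k K (d + s) hn
  obtain ⟨F0, E0, hF0, hE0, hli, hex⟩ := exists_adapted hn hα
  obtain ⟨m, M, H, N, hm, hH, hHs, hN⟩ := exists_one_degree hy hB hli hE0
  obtain ⟨z, N1, hz⟩ := Pool.Agent.Y212.SD.t_GP k K s M m N hm (fun j => rs y E0 (H j))
    (fun j => rs_hom y E0 (hH j)) hN
  -- the symmetric differentials
  let a : Fin s → MvPolynomial (Fin (d + s)) K :=
    fun i => ∑ j, C (algebraMap k K (z i j)) * H j
  have haS : ∀ i, SymOrb (d + s) δ (sym (k := k) y (a i)) := fun i => symOrb_sum hHs (z i)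
  have hah : ∀ i, (a i).IsHomogeneous m := by
    intro i
    refine IsHomogeneous.sum _ _ _ fun j _ => ?_
    have h1 := (isHomogeneous_C (Fin (d + s)) (algebraMap k K (z i j))).mul (hH j)
    rw [zero_add] at h1
    exact h1
  have hrs : ∀ i, rs y E0 (a i) = ∑ j, C (algebraMap k K (z i j)) * rs y E0 (H j) := by
    intro i
    change rs y E0 (∑ j, C (algebraMap k K (z i j)) * H j) = _
    rw [map_sum]
    refine Finset.sum_congr rfl fun j _ => ?_
    rw [map_mul]
    congr 1
    exact (rs y E0).commutes _
  obtain ⟨Q, W, hW, hQ, hQ0⟩ := exists_semi (k := k) hs hm (fun i => rs y E0 (a i))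
    (fun i => rs_hom y E0 (hah i)) (N := N1) (by
      intro β hβ
      have h1 := hz β hβ
      have h2 : (fun i => rs y E0 (a i)) =
          fun i => ∑ j, C (algebraMap k K (z i j)) * rs y E0 (H j) := funext hrs
      rw [h2]
      exact h1)
  obtain ⟨m1, hm1, b, hb, hb0, hbi⟩ := hT
  -- the determinant of the reference frame
  let R : Fin (d + s) → Derivation k K K := fr F0 E0
  set Δ0 : K := (Matrix.of fun i c => R i (y c)).det with hΔ0
  set I0 : K := aeval (cof m fun j => rs y E0 (a j)) Q with hI0
  obtain ⟨Ey, hEy⟩ := Pool.Agent.W636.PG.exists_duals k K (d + s) y hy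
  have hΔ : Δ0 ≠ 0 := by
    choose bb hbb using hex
    -- the matrix of the dual frame in the reference frame
    let P : Matrix (Fin (d + s)) (Fin (d + s)) K :=
      Matrix.of fun i => Fin.append (fun l => α l (Ey i)) (bb (Ey i))
    have h1 : P * (Matrix.of fun i c => R i (y c)) = 1 := by
      ext i c
      rw [Matrix.mul_apply, Matrix.one_apply, ← hEy i c]
      have h2 : Ey i = ∑ j, P i j • R j := by
        rw [fr_sum]
        conv_lhs => rw [hbb (Ey i)]
        simp only [P, Matrix.of_apply, Fin.append_left, Fin.append_right]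
      conv_rhs => rw [h2, Pool.Agent.W721.PG.EFF2.der_sum]
      rfl
    intro h0
    have h2 := congrArg Matrix.det h1
    rw [Matrix.det_mul, ← hΔ0, h0, mul_zero, Matrix.det_one] at h2
    exact zero_ne_one h2
  -- the value on an adapted frame
  have hval : ∀ (b : K) (G : Fin d → Derivation k K K) (E : Fin s → Derivation k K K),
      (∀ i j, α i (E j) = 0) →
      b ^ W * I0 ^ m1 / Δ0 ^ (m1 * W) * (Matrix.of fun i c => fr G E i (y c)).det ^ (m1 * W) =
        (b * (Matrix.of fun i j => α i (G j)).det ^ m1) ^ W *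
          (aeval (cof m fun j => rs y E (a j)) Q) ^ m1 := by
    intro b G E hE
    choose bb hbb using hex
    let Cm : Matrix (Fin d) (Fin d) K := Matrix.of fun l l' => α l' (G l)
    let A : Matrix (Fin s) (Fin s) K := Matrix.of fun j => bb (E j)
    let P : Matrix (Fin (d + s)) (Fin (d + s)) K :=
      Matrix.of fun i => Fin.append (fun l => α l (fr G E i)) (bb (fr G E i))
    have h1 : (Matrix.of fun i c => fr G E i (y c)) = P * (Matrix.of fun i c => R i (y c)) := by
      ext i c
      rw [Matrix.mul_apply, Matrix.of_apply]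
      have h2 : fr G E i = ∑ j, P i j • R j := by
        rw [fr_sum]
        conv_lhs => rw [hbb (fr G E i)]
        simp only [P, Matrix.of_apply, Fin.append_left, Fin.append_right]
      conv_lhs => rw [h2, Pool.Agent.W721.PG.EFF2.der_sum]
      rfl
    have h2 : P.det = Cm.det * A.det := by
      refine det_blocks P Cm A (fun l l' => ?_) (fun j l' => ?_) (fun j j' => ?_)
      · simp only [P, Cm, Matrix.of_apply, Fin.append_left, fr]
      · simp only [P, Matrix.of_apply, Fin.append_left, fr, Fin.append_right]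
        exact hE l' j
      · simp only [P, A, Matrix.of_apply, fr, Fin.append_right]
    have hEA : E = fun j => ∑ l, A j l • E0 l := by
      funext j
      conv_lhs => rw [hbb (E j)]
      rw [Finset.sum_eq_zero fun l _ => by rw [hE, zero_smul], zero_add]
      rfl
    have h3 : aeval (cof m fun j => rs y E (a j)) Q = A.det ^ W * I0 := by
      rw [hEA, cof_trans y E0 A a hah]
      exact Pool.Agent.Y301.SD.t_DENS k K s m W Q hQ A _
    have h4 : Cm.det = (Matrix.of fun i j => α i (G j)).det := by
      rw [← Matrix.det_transpose]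
      rfl
    rw [h1, Matrix.det_mul, h2, ← hΔ0, h3, h4, mul_pow, mul_pow, mul_pow, mul_pow,
      div_mul_eq_mul_div, div_eq_iff (pow_ne_zero _ hΔ), ← pow_mul, ← pow_mul, Nat.mul_comm W m1]
    ring
  -- the form and its regularity
  let ω : K → (Fin (d + s) → Derivation k K K) → K := fun b D =>
    b ^ W * I0 ^ m1 / Δ0 ^ (m1 * W) * (Matrix.of fun i c => D i (y c)).det ^ (m1 * W)
  have hpl : ∀ b, IsPluriForm k K (d + s) (m1 * W) (ω b) := by
    intro b X D
    change b ^ W * I0 ^ m1 / Δ0 ^ (m1 * W) *
      (Matrix.of fun i c => (∑ j, X i j • D j) (y c)).det ^ (m1 * W) =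
        X.det ^ (m1 * W) * (b ^ W * I0 ^ m1 / Δ0 ^ (m1 * W) *
          (Matrix.of fun i c => D i (y c)).det ^ (m1 * W))
    have e : (Matrix.of fun i c => (∑ j, X i j • D j) (y c)) =
        X * Matrix.of fun i c => D i (y c) := by
      ext i c
      rw [Matrix.of_apply, Matrix.mul_apply, Pool.Agent.W721.PG.EFF2.der_sum]
      rfl
    rw [e, Matrix.det_mul, mul_pow]
    ring
  have hsec : ∀ b, TenSec (d + s) δ α m1 b → PairSec k K (d + s) δ {1} (m1 * W) 0 (ω b) := by
    intro b hb
    refine ⟨hpl b, fun v hv D hD => ?_⟩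
    obtain ⟨y', F, i0, hy', hF, ht, hyr, hpres⟩ := pFRAME k K (d + s) hn
      (fun y hy => Pool.Agent.W824.PG.fin_adj hess y hy) v hv
    have ht0 := ne_zero_of_ord ht
    have hlog : ∀ b, b ≠ i0 → Lg v (F b) := by
      intro b hb
      refine log_of_pres v _ (hpres b) ht0 ht ?_
      rw [hF, if_neg hb, zero_div]
      exact Or.inl rfl
    have hexpF := fun D : Derivation k K K => Pool.Agent.W73.PG.PULL.expand y' hy' F hF D
    obtain ⟨J, E, hE, hJE, hcase⟩ := exists_local (s := s) (v := v) α F i0 hpres hlog
      (fun D hD => ⟨fun b => D (y' b), fun i => hD _ (hyr i), (hexpF D).symm⟩) rfl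
      (exists_mu_ne α F (fun D => ⟨fun b => D (y' b), (hexpF D).symm⟩) (D := F0) (by
        have h1 : (Matrix.of fun i j => α i (F0 j)) = 1 := by
          ext i j
          rw [Matrix.of_apply, hF0, Matrix.one_apply]
        rw [h1, Matrix.det_one]
        exact one_ne_zero))
    choose x w hx hw hD' using fun i => hJE (D i) (hD i)
    let X : Matrix (Fin (d + s)) (Fin (d + s)) K := Matrix.of fun i => Fin.append (x i) (w i)
    have hDX : D = fun i => ∑ j, X i j • fr (fun l => F (J l)) E j := by
      funext i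
      rw [fr_sum, hD' i]
      simp only [X, Matrix.of_apply, Fin.append_left, Fin.append_right]
    have hX : Ge v 0 X.det := by
      refine ge_det v _ fun i j => ?_
      change v.Reg (Fin.append (x i) (w i) j)
      refine Fin.addCases (fun l => ?_) (fun l => ?_) j
      · rw [Fin.append_left]
        exact hx i l
      · rw [Fin.append_right]
        exact hw i l
    have h1 : ω b D = X.det ^ (m1 * W) * ω b (fr (fun l => F (J l)) E) := by
      conv_lhs => rw [hDX]
      exact hpl b X _
    have h2 : ω b (fr (fun l => F (J l)) E) =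
        (b * (Matrix.of fun i j => α i (F (J j))).det ^ m1) ^ W *
          (aeval (cof m fun j => rs y E (a j)) Q) ^ m1 := hval b _ E hE
    have h3 : GeR v (-((m1 * W : ℕ) * δ v)) (ω b (fr (fun l => F (J l)) E)) := by
      rw [h2]
      rcases hcase with ⟨hJ, j1, hj1, hj⟩ | ⟨hJ, hj⟩
      · have h4 : Ge v 0 (b * (Matrix.of fun i j => α i (F (J j))).det ^ m1) :=
          (hb v hv fun l => F (J l)).2 hJ
        have h5 := semi_one hv y a haS hQ E j1 hj1 hj
        refine (((Ge.toR h4).pow W).mul (h5.pow m1)).mono (le_of_eq ?_)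
        push_cast
        ring
      · have h4 : GeR v (-(m1 * δ v)) (b * (Matrix.of fun i j => α i (F (J j))).det ^ m1) :=
          (hb v hv fun l => F (J l)).1 hJ
        have h5 := semi_tan (Q := Q) hv y a haS E hj
        refine ((h4.pow W).mul (h5.pow m1)).mono (le_of_eq ?_)
        push_cast
        ring
    have h4 := (Ge.toR (hX.pow (m1 * W))).mul h3
    rw [← h1] at h4
    rcases h4 with h4 | h4
    · exact Or.inl h4
    · right
      refine ⟨1, by simp, one_ne_zero, ?_⟩
      simp only [Nat.cast_zero, zero_mul, zero_sub]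
      refine le_trans (le_of_eq ?_) h4
      push_cast
      ring
  -- the values on the reference frame
  have hR : ∀ b, ω b R = b ^ W * I0 ^ m1 := by
    intro b
    change b ^ W * I0 ^ m1 / Δ0 ^ (m1 * W) * Δ0 ^ (m1 * W) = _
    rw [div_mul_cancel₀ _ (pow_ne_zero _ hΔ)]
  refine ⟨m1 * W, Nat.one_le_iff_ne_zero.2 (Nat.mul_ne_zero (by omega) (by omega)),
    fun l => ω (b l), fun l => hsec _ (hb l), R, fun l => ?_, ?_⟩
  · change ω (b l) R ≠ 0
    rw [hR]
    exact mul_ne_zero (pow_ne_zero _ (hb0 l)) (pow_ne_zero _ hQ0)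
  · have h1 : (fun l : Fin h => ω (b l.succ) R / ω (b 0) R) =
        fun l => (b l.succ / b 0) ^ W := by
      funext l
      rw [hR, hR, mul_div_mul_right _ _ (pow_ne_zero _ hQ0), div_pow]
    change AlgebraicIndependent k (fun l : Fin h => ω (b l.succ) R / ω (b 0) R)
    rw [h1]
    have h2 := hbi.polynomial_aeval_of_transcendental (f := fun _ => (Polynomial.X ^ W))
      (fun i => (Polynomial.transcendental_X k).pow (by omega))
    have h3 : (fun l : Fin h => (b l.succ / b 0) ^ W) = fun i : Fin h =>
        Polynomial.aeval (b i.succ / b 0) (Polynomial.X ^ W : Polynomial k) := by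
      funext l
      rw [map_pow, Polynomial.aeval_X]
    rw [h3]
    exact h2

end

end Pool.Agent.Y174.RA
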