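import Pool.Agent.Y174.RA.A5
import Pool.Agent.Y173.QM.Loc

/-! Symmetric differentials along the fibres of a fibre space: subadditivity. -/

set_option autoImplicit false
set_option linter.overlappingInstances false
set_option linter.unusedSectionVars false
set_option maxHeartbeats 1000000

open FF MvPolynomial Pool.Agent.W619.PQ Pool.Agent.W619.PL Pool.Agent.W619.TW
  Pool.Agent.W603.LV Pool.Agent.W619.Y Pool.Agent.W824.PG Pool.Agent.Y174.T Pool.Agent.Y174.SD
  Pool.Agent.Y174.OB

namespace Pool.Agent.Y174.RA

section

variable {k L K : Type} [Field k] [CharZero k] [Field L] [Field K] [Algebra k L] [Algebra k K]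
  [Algebra L K] [IsScalarTower k L K] {d s : ℕ}

/-- the form `dt` -/
def dt (t : K) : Derivation k K K →ₗ[K] K where
  toFun D := D t
  map_add' _ _ := rfl
  map_smul' _ _ := rfl

theorem dt_apply (t : K) (D : Derivation k K K) : dt t D = D t := rfl

/-- pluricanonical forms on the base are sections of the sheaf of `d`-forms -/
theorem tenSec_of_base (hessL : Algebra.EssFiniteType k L) (hL : Algebra.trdeg k L = d)
    (hn : Algebra.trdeg k K = (d + s : ℕ)) {δ : Place k K → ℝ} {δB : Place k L → ℝ}
    (hδ : ∀ v, 0 ≤ δ v) (hδB : ∀ u, δB u ≤ 1)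
    (hle : ∀ (v : Place k K) (u : Place k L) (e : ℕ), LiesOn v u e → 1 - e * (1 - δB u) ≤ δ v)
    {m : ℕ} {ω : (Fin d → Derivation k L L) → L} (hω : PairSec k L d δB {1} m 0 ω)
    {y : Fin d → L} (hy : IsTranscendenceBasis k y) {E : Fin d → Derivation k L L}
    (hE : ∀ i j, E i (y j) = if i = j then 1 else 0) :
    TenSec (d + s) δ (fun i => dt (k := k) (algebraMap L K (y i))) m
      (algebraMap L K (ω E)) := by
  classical
  intro v hv D
  by_cases htriv : ∃ f : L, v.ord (algebraMap L K f) ≠ 0
  · obtain ⟨e, u, hu⟩ := exists_over (K := L) v htriv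
    have hdiv : IsDivisorial u d := pDIVR k L K d (d + s) u v e hL hn hu hv
    obtain ⟨y', E', i0, hy', hE', hord, hyr, hpres⟩ := pFRAME k L d hL
      (fun y hy => Pool.Agent.W824.PG.fin_adj hessL y hy) u hdiv
    have hy0 := ne_zero_of_ord hord
    have hy0' : algebraMap L K (y' i0) ≠ 0 := by simpa using hy0
    have hord' : v.ord (algebraMap L K (y' i0)) = e := by
      rw [hu.2, hord, mul_one]
    have he : (0 : ℝ) < e := by exact_mod_cast hu.1
    -- the value in the coordinates of the place
    have hval : algebraMap L K (ω E) * (Matrix.of fun i j => D j (algebraMap L K (y i))).det ^ m =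
        algebraMap L K (ω E') *
          (Matrix.of fun c j => D j (algebraMap L K (y' c))).det ^ m := by
      set A : Matrix (Fin d) (Fin d) L := Matrix.of fun c l => E' c (y l) with hA
      have h1 : ω E' = A.det ^ m * ω E := by
        have h2 := hω.1 A E
        have h3 : (fun i => ∑ j, A i j • E j) = E' := by
          funext i
          exact Pool.Agent.W73.PG.PULL.expand y hy E hE (E' i)
        rw [h3] at h2
        exact h2
      have h2 : (Matrix.of fun i j => D j (algebraMap L K (y i))) =
          (A.map (algebraMap L K)).transpose *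
            (Matrix.of fun c j => D j (algebraMap L K (y' c))) := by
        ext i j
        rw [Matrix.mul_apply, Matrix.of_apply,
          Pool.Agent.W308.PG.YLOC.expand y' E' hy' hE' (D j) (y i)]
        rfl
      have h3 : (A.map (algebraMap L K)).det = algebraMap L K A.det :=
        ((algebraMap L K).map_det A).symm
      rw [h2, Matrix.det_mul, Matrix.det_transpose, h3, h1, map_mul, map_pow, mul_pow]
      ring
    have hω' : GeR v (-(e * (m * δB u))) (algebraMap L K (ω E')) := by
      have h1 : GeR u (-(m * δB u)) (ω E') := by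
        rcases hω.2 u hdiv E' hpres with h2 | ⟨x, hx, -, h2⟩
        · exact Or.inl h2
        · right
          simpa using h2
      refine (h1.up hu).mono (le_of_eq ?_)
      ring
    have hrow : ∀ b : ℤ, (Ge v b (0 : K)) := fun b => Or.inl rfl
    have hdet : ∀ b : ℤ, (∀ j, Ge v b (D j (algebraMap L K (y' i0)))) →
        (∀ j c, Ge v 0 (D j (algebraMap L K (y' c)))) →
        Ge v b (Matrix.of fun c j => D j (algebraMap L K (y' c))).det := by
      intro b h1 h2
      have h3 := Pool.Agent.Y173.QA.ge_det_row v
        (Matrix.of fun c j => D j (algebraMap L K (y' c))) (fun c => if c = i0 then b else 0)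
        (fun c j => by
          rw [Matrix.of_apply]
          by_cases hc : c = i0
          · rw [if_pos hc, hc]
            exact h1 j
          · rw [if_neg hc]
            exact h2 j c)
      rw [Finset.sum_ite_eq' Finset.univ i0 (fun _ => b), if_pos (Finset.mem_univ _)] at h3
      exact h3
    have hmm : (0 : ℝ) ≤ m := Nat.cast_nonneg m
    refine ⟨fun hD => ?_, fun hD => ?_⟩
    · have h1 := hdet ((e : ℤ) - 1) (fun j => by
        have h2 := ge_der (hD j) hy0'
        rw [hord'] at h2
        exact h2) (fun j c => hD j _ (hu.reg.2 (hyr c)))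
      have h2 := hω'.mul ((Ge.toR h1).pow m)
      change GeR v (-(m * δ v)) (algebraMap L K (ω E) *
        (Matrix.of fun i j => D j (algebraMap L K (y i))).det ^ m)
      rw [hval]
      refine h2.mono ?_
      have h3 := mul_le_mul_of_nonneg_left (hle v u e hu) hmm
      push_cast
      nlinarith
    · have hDp : ∀ j, Pres v (D j) := fun j => Lg.pres (hD j)
      have h1 := hdet (e : ℤ) (fun j => by
        have h2 : Ge v 0 (D j (algebraMap L K (y' i0)) / algebraMap L K (y' i0)) := hD j _
        have h3 : Ge v e (algebraMap L K (y' i0)) := Or.inr hord'.ge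
        have h4 := h2.mul h3
        rwa [div_mul_cancel₀ _ hy0', zero_add] at h4) (fun j c => hDp j _ (hu.reg.2 (hyr c)))
      have h2 := hω'.mul ((Ge.toR h1).pow m)
      change v.Reg (algebraMap L K (ω E) *
        (Matrix.of fun i j => D j (algebraMap L K (y i))).det ^ m)
      rw [hval]
      have h5 : Ge v 0 (algebraMap L K (ω E') *
          (Matrix.of fun c j => D j (algebraMap L K (y' c))).det ^ m) := by
        refine GeR.toInt (h2.mono ?_)
        have h3 : (e : ℝ) * (m * δB u) ≤ e * (m * 1) :=
          mul_le_mul_of_nonneg_left (mul_le_mul_of_nonneg_left (hδB u) hmm) he.le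
        push_cast
        nlinarith
      exact h5
  · push Not at htriv
    have h0 : (∀ j, Pres v (D j)) → Ge v 0 (algebraMap L K (ω E) *
        (Matrix.of fun i j => dt (k := k) (algebraMap L K (y i)) (D j)).det ^ m) := by
      intro hD
      have h1 : Ge v 0 (Matrix.of fun i j => dt (k := k) (algebraMap L K (y i)) (D j)).det := by
        refine ge_det v _ fun i j => ?_
        exact hD j _ (Or.inr (htriv (y i)).ge)
      have h2 : Ge v 0 (algebraMap L K (ω E)) := Or.inr (htriv (ω E)).ge
      have h3 := h2.mul (h1.pow m)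
      rwa [mul_zero, zero_add] at h3
    refine ⟨fun hD => ?_, fun hD => h0 fun j => Lg.pres (hD j)⟩
    refine (Ge.toR (h0 hD)).mono ?_
    have h1 := mul_nonneg (Nat.cast_nonneg (α := ℝ) m) (hδ v)
    push_cast
    linarith

/-- **Subadditivity.** -/
theorem main_rel (hessL : Algebra.EssFiniteType k L) (hess : Algebra.EssFiniteType k K)
    (hL : Algebra.trdeg k L = d) (hn : Algebra.trdeg k K = (d + s : ℕ)) (hs : 1 ≤ s)
    {δ : Place k K → ℝ} {δB : Place k L → ℝ} (hδ : ∀ v, 0 ≤ δ v) (hδB : ∀ u, δB u ≤ 1)
    (hle : ∀ (v : Place k K) (u : Place k L) (e : ℕ), LiesOn v u e → 1 - e * (1 - δB u) ≤ δ v)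
    (hB : NoBaseRel L (d + s) δ) {h : ℕ} (hk : PairKod k L d δB h) :
    PairKod k K (d + s) δ h := by
  classical
  have hL0 : CharZero L := charZero_of_injective_algebraMap (algebraMap k L).injective
  have hK0 : CharZero K := charZero_of_injective_algebraMap (algebraMap k K).injective
  obtain ⟨y, hy⟩ := Pool.Agent.W636.PG.exists_basis k L d hL
  obtain ⟨E, hE⟩ := Pool.Agent.W636.PG.exists_duals k L d y hy
  obtain ⟨m, hm, ω, hω, D0, hD0, hind⟩ := hk
  let α : Fin d → (Derivation k K K →ₗ[K] K) := fun i => dt (k := k) (algebraMap L K (y i))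
  -- the forms are independent
  have hα : LinearIndependent K α := by
    obtain ⟨r, rfl⟩ : ∃ r, s = r + 1 := ⟨s - 1, by omega⟩
    obtain ⟨x, hx⟩ := Pool.Agent.W636.PG.exists_basis L K (r + 1) (trdeg_LK (L := L) hL hn)
    have hyx := basis_append hy hx
    obtain ⟨E', hE'⟩ := Pool.Agent.W636.PG.exists_duals k K (d + (r + 1)) _ hyx
    rw [Fintype.linearIndependent_iff]
    intro g hg j
    have h1 := LinearMap.congr_fun hg (E' (Fin.castAdd (r + 1) j))
    rw [LinearMap.sum_apply, LinearMap.zero_apply] at h1
    have h2 : ∀ i, (g i • α i) (E' (Fin.castAdd (r + 1) j)) = if j = i then g i else 0 := by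
      intro i
      have h3 := hE' (Fin.castAdd (r + 1) j) (Fin.castAdd (r + 1) i)
      rw [Fin.append_left] at h3
      change g i * (E' (Fin.castAdd (r + 1) j)) (algebraMap L K (y i)) = _
      have h4 : (E' (Fin.castAdd (r + 1) j)) (algebraMap L K (y i)) = if j = i then 1 else 0 := by
        refine h3.trans ?_
        by_cases hji : j = i
        · rw [if_pos hji, if_pos (by rw [hji])]
        · rw [if_neg hji, if_neg fun h => hji (Fin.castAdd_injective _ _ h)]
      rw [h4]
      split_ifs <;> simp
    rw [Finset.sum_congr rfl fun i _ => h2 i, Finset.sum_ite_eq Finset.univ j,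
      if_pos (Finset.mem_univ _)] at h1
    exact h1
  -- the values on the dual frame
  obtain ⟨A, hA⟩ : ∃ A : Matrix (Fin d) (Fin d) L, ∀ l, ω l D0 = A.det ^ m * ω l E := by
    refine ⟨Matrix.of fun i j => D0 i (y j), fun l => ?_⟩
    have h2 := (hω l).1 (Matrix.of fun i j => D0 i (y j)) E
    have h3 : (fun i => ∑ j, (Matrix.of fun i j => D0 i (y j)) i j • E j) = D0 := by
      funext i
      exact Pool.Agent.W73.PG.PULL.expand y hy E hE (D0 i)
    rw [h3] at h2
    exact h2
  have hA0 : A.det ^ m ≠ 0 := fun h0 => hD0 0 (by rw [hA, h0, zero_mul])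
  have hωE : ∀ l, ω l E ≠ 0 := fun l h0 => hD0 l (by rw [hA, h0, mul_zero])
  refine main_ker hess hn hs hα (fun F hF c hc hcα => ?_) ⟨m, hm, fun l => algebraMap L K (ω l E),
    fun l => tenSec_of_base hessL hL hn hδ hδB hle (hω l) hy hE, fun l => ?_, ?_⟩
  · refine hB F hF c hc fun x => ?_
    have h1 : ∀ i, F i (algebraMap L K x) =
        ∑ b, algebraMap L K (E b x) * F i (algebraMap L K (y b)) := fun i =>
      Pool.Agent.W308.PG.YLOC.expand y E hy hE (F i) x
    have h2 : ∀ i, c i * algebraMap K (AlgebraicClosure K) (F i (algebraMap L K x)) =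
        ∑ b, algebraMap K (AlgebraicClosure K) (algebraMap L K (E b x)) *
          (c i * algebraMap K (AlgebraicClosure K) (α b (F i))) := by
      intro i
      rw [h1, map_sum, Finset.mul_sum]
      refine Finset.sum_congr rfl fun b _ => ?_
      rw [map_mul]
      change _ = _ * (c i * algebraMap K (AlgebraicClosure K) (F i (algebraMap L K (y b))))
      ring
    rw [Finset.sum_congr rfl fun i _ => h2 i, Finset.sum_comm]
    refine Finset.sum_eq_zero fun b _ => ?_
    rw [← Finset.mul_sum, hcα b, mul_zero]
  · exact (map_ne_zero_iff _ (algebraMap L K).injective).2 (hωE l)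
  · have h1 : (fun l : Fin h => algebraMap L K (ω l.succ E) / algebraMap L K (ω 0 E)) =
        (IsScalarTower.toAlgHom k L K) ∘ fun l : Fin h => ω l.succ D0 / ω 0 D0 := by
      funext l
      change _ = algebraMap L K (ω l.succ D0 / ω 0 D0)
      rw [hA, hA, mul_div_mul_left _ _ hA0, map_div₀]
    rw [h1]
    exact hind.map' (algebraMap L K).injective

end

end Pool.Agent.Y174.RA
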