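import Pool.Agent.Y174.RA.A6

/-! Symmetric differentials on the kernel of some 1-forms: common zeros if `κ = -∞`; the inequality
of subadditivity for fibres with `κ ≤ 0`. -/

set_option autoImplicit false
set_option linter.overlappingInstances false
set_option linter.unusedSectionVars false
set_option maxHeartbeats 400000

open FF MvPolynomial Pool.Agent.W619.PQ Pool.Agent.W619.PL Pool.Agent.W619.TW
  Pool.Agent.W603.LV Pool.Agent.W619.Y Pool.Agent.W824.PG Pool.Agent.Y174.T Pool.Agent.Y174.SD
  Pool.Agent.Y174.OB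

namespace Pool.Agent.Y174.RA

section

variable {k K : Type} [Field k] [CharZero k] [Field K] [Algebra k K] {n d : ℕ}

/-- common zeros -/
theorem common_zero (hess : Algebra.EssFiniteType k K) (hn : Algebra.trdeg k K = n) (hd : d < n)
    {δ : Place k K → ℝ} {α : Fin d → (Derivation k K K →ₗ[K] K)}
    (hα : LinearIndependent K α) {m : ℕ} (hm : 1 ≤ m) {a : K} (ha : a ≠ 0)
    (hT : TenSec n δ α m a) (hκ : ¬ PairKod k K n δ 0) :
    ∃ E : Fin n → Derivation k K K, LinearIndependent K E ∧
      ∃ c : Fin n → AlgebraicClosure K, c ≠ 0 ∧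
        (∀ j, ∑ i, c i * algebraMap K (AlgebraicClosure K) (α j (E i)) = 0) ∧
        ∀ (l : ℕ) (s : Derivation k K K → K) (p : MvPolynomial (Fin n) K), 1 ≤ l →
          IsSymDiff l s → SymOrb n δ s → (∀ x : Fin n → K, s (∑ i, x i • E i) = eval x p) →
          aeval c p = 0 := by
  obtain ⟨r, rfl⟩ : ∃ r, n = d + r := ⟨n - d, by omega⟩
  by_contra hcon
  apply hκ
  refine main_ker hess hn (by omega) hα (fun E hE c hc hcα => ?_) ⟨m, hm, fun _ => a,
    fun _ => hT, fun _ => ha, algebraicIndependent_empty_type_iff.2 (algebraMap k K).injective⟩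
  by_contra h2
  apply hcon
  refine ⟨E, hE, c, hc, hcα, fun l s p hl hs ho hp => ?_⟩
  by_contra h3
  exact h2 ⟨l, s, p, hl, hs, ho, hp, h3⟩

theorem kod_le {δ : Place k K → ℝ} {a b : ℕ} (hab : a ≤ b) (h : PairKod k K n δ b) :
    PairKod k K n δ a := by
  induction hab with
  | refl => exact h
  | step _ ih => exact ih (kod_mono h)

end

end Pool.Agent.Y174.RA
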