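import Pool.Agent.Y174.OB.Defs2

/-! Symmetric differentials on the kernel of some rational 1-forms: definitions. -/

set_option autoImplicit false
set_option linter.overlappingInstances false
set_option linter.unusedSectionVars false

universe u v

open FF Pool.Agent.W619.PQ Pool.Agent.W619.TW

namespace Pool.Agent.Y174

section

variable {k : Type v} {K : Type u} [Field k] [Field K] [Algebra k K] {d : ℕ}

/-- `a (α 1 ∧ ... ∧ α d) ^ m` is a section of the `m`-th tensor power of the sheaf of `d`-forms of the
variety of dimension `n` with the boundary with multiplicities `δ v`: along each prime divisor `v`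
over the variety, its values on vector fields regular along `v` have order at least `- m δ v`, and
its values on vector fields which are tangent to `v` are regular. -/
def TenSec (n : ℕ) (δ : Place k K → ℝ) (α : Fin d → (Derivation k K K →ₗ[K] K)) (m : ℕ)
    (a : K) : Prop :=
  ∀ v : Place k K, IsDivisorial v n → ∀ D : Fin d → Derivation k K K,
    ((∀ j f, v.Reg f → v.Reg (D j f)) → a * (Matrix.of fun i j => α i (D j)).det ^ m = 0 ∨
      -(m * δ v) ≤ (v.ord (a * (Matrix.of fun i j => α i (D j)).det ^ m) : ℝ)) ∧
    ((∀ j f, v.Reg (D j f / f)) → v.Reg (a * (Matrix.of fun i j => α i (D j)).det ^ m))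

/-- For some `m ≥ 1` there are `h + 1` nonzero sections `a (α 1 ∧ ... ∧ α d) ^ m` of the `m`-th tensor
power of the sheaf of `d`-forms of the pair, with algebraically independent ratios: `κ ≥ h` for the
saturated subsheaf of rank one generated by `α 1 ∧ ... ∧ α d`. -/
def TenKod (n : ℕ) (δ : Place k K → ℝ) (α : Fin d → (Derivation k K K →ₗ[K] K)) (h : ℕ) : Prop :=
  ∃ m : ℕ, 1 ≤ m ∧ ∃ a : Fin (h + 1) → K, (∀ l, TenSec n δ α m (a l)) ∧ (∀ l, a l ≠ 0) ∧
    AlgebraicIndependent k (fun l : Fin h => a l.succ / a 0)

/-- The symmetric differentials of positive degrees of the variety of dimension `n` with the boundary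
with multiplicities `δ v` have no common zeros on the tangent vectors at the (geometric) generic
point which are killed by the rational 1-forms `α 1, ..., α d`: let `E 0, ..., E (n - 1)` be linearly
independent rational vector fields, and `c i`, not all zero, in the algebraic closure of `K`, with
`∑ i, c i * α j (E i) = 0` for all `j`; then there is a symmetric differential `s`, of some degree
`m ≥ 1`, with `s (∑ i, c i • E i) ≠ 0`, where `s (∑ i, a i • E i)` is the polynomial `p` in the
`a i`. -/
def NoBaseKer (n : ℕ) (δ : Place k K → ℝ) (α : Fin d → (Derivation k K K →ₗ[K] K)) : Prop :=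
  ∀ E : Fin n → Derivation k K K, LinearIndependent K E →
    ∀ c : Fin n → AlgebraicClosure K, c ≠ 0 →
      (∀ j, ∑ i, c i * algebraMap K (AlgebraicClosure K) (α j (E i)) = 0) →
      ∃ (m : ℕ) (s : Derivation k K K → K) (p : MvPolynomial (Fin n) K), 1 ≤ m ∧
        IsSymDiff m s ∧ SymOrb n δ s ∧
        (∀ a : Fin n → K, s (∑ i, a i • E i) = MvPolynomial.eval a p) ∧
        MvPolynomial.aeval c p ≠ 0

end

section

variable {k : Type v} (L : Type u) {K : Type u} [Field k] [Field L] [Field K] [Algebra k K]
  [Algebra L K]

/-- The symmetric differentials of positive degrees of the variety of dimension `n` with function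
field `K` and with the boundary with multiplicities `δ v` have no common zeros on the tangent vectors
at the (geometric) generic point along the fibres of the map to the variety with function field `L`:
let `E 0, ..., E (n - 1)` be linearly independent rational vector fields, and `c i`, not all zero, in
the algebraic closure of `K`, such that `∑ i, c i * E i x = 0` for all `x` in `L`; then there is a
symmetric differential `s`, of some degree `m ≥ 1`, with `s (∑ i, c i • E i) ≠ 0`, where
`s (∑ i, a i • E i)` is the polynomial `p` in the `a i`. -/
def NoBaseRel (n : ℕ) (δ : Place k K → ℝ) : Prop :=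
  ∀ E : Fin n → Derivation k K K, LinearIndependent K E →
    ∀ c : Fin n → AlgebraicClosure K, c ≠ 0 →
      (∀ x : L, ∑ i, c i * algebraMap K (AlgebraicClosure K) (E i (algebraMap L K x)) = 0) →
      ∃ (m : ℕ) (s : Derivation k K K → K) (p : MvPolynomial (Fin n) K), 1 ≤ m ∧
        IsSymDiff m s ∧ SymOrb n δ s ∧
        (∀ a : Fin n → K, s (∑ i, a i • E i) = MvPolynomial.eval a p) ∧
        MvPolynomial.aeval c p ≠ 0

end

end Pool.Agent.Y174
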